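import Mathlib
import Pool.Agent.U707.LI.Stm

/-!
Project LI (helper707), package IND (helper612): linear independence on a coset.
-/

set_option autoImplicit false

namespace Pool.Agent.U612.LI

open Module Pool.Agent.U707.LI

variable {G E V : Type} [Group G] [Field E] [AddCommGroup V] [Module E V]

/-- the action of the group algebra of `H` -/
noncomputable def ga (H : Subgroup G) (ρ : G →* Module.End E V) :
    MonoidAlgebra E H →ₐ[E] Module.End E V :=
  MonoidAlgebra.lift E (Module.End E V) H (ρ.comp H.subtype)

theorem ga_single (H : Subgroup G) (ρ : G →* Module.End E V) (h : H) (a : E) :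
    ga H ρ (MonoidAlgebra.single h a) = a • ρ h := by
  unfold ga
  rw [MonoidAlgebra.lift_single]
  rfl

theorem ga_surj {H : Subgroup G} {ρ : G →* Module.End E V} (hF : Full H ρ) :
    Function.Surjective (ga H ρ) := by
  have h1 : Submodule.span E (ρ '' (H : Set G)) ≤ LinearMap.range (ga H ρ).toLinearMap := by
    rw [Submodule.span_le]
    rintro _ ⟨h, hh, rfl⟩
    refine ⟨MonoidAlgebra.single ⟨h, hh⟩ 1, ?_⟩
    rw [AlgHom.toLinearMap_apply, ga_single, one_smul]
  intro T
  have h2 : T ∈ Submodule.span E (ρ '' (H : Set G)) := by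
    have := hF
    unfold Full at this
    rw [this]; trivial
  obtain ⟨r, hr⟩ := h1 h2
  exact ⟨r, hr⟩

/-- the trace form is nondegenerate -/
theorem trace_nondeg [FiniteDimensional E V] (X : Module.End E V)
    (h : ∀ T : Module.End E V, LinearMap.trace E V (X * T) = 0) : X = 0 := by
  classical
  obtain ⟨b, -⟩ : ∃ b : Basis (Fin (finrank E V)) E V, b = Module.finBasis E V := ⟨_, rfl⟩
  have h1 : LinearMap.toMatrix b b X = 0 := by
    rw [Matrix.ext_iff_trace_mul_right]
    intro x
    have h2 := h (Matrix.toLin b b x)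
    rw [LinearMap.trace_eq_matrix_trace E b, LinearMap.toMatrix_mul, LinearMap.toMatrix_toLin] at h2
    rw [h2, zero_mul, Matrix.trace_zero]
  exact (LinearMap.toMatrix b b).map_eq_zero_iff.1 h1

theorem t_IND : S_IND := by
  classical
  intro G E _ _ H _ V _ _ _ _ ρ ι _ W _ _ _ σ c g hF htr
  -- (0) the identity extends to the group algebra
  have ht : ∀ t : MonoidAlgebra E H, LinearMap.trace E V (ρ g * ga H ρ t) =
      ∑ i, c i * LinearMap.trace E (W i) (σ i g * ga H (σ i) t) := by
    intro t
    induction t using MonoidAlgebra.induction_on with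
    | of h =>
      have h1 := htr h h.2
      rw [MonoidAlgebra.of_apply, ga_single, one_smul, ← map_mul, h1]
      refine Finset.sum_congr rfl fun i _ => ?_
      rw [ga_single, one_smul, ← map_mul]
    | add r s hr hs =>
      rw [map_add, mul_add, map_add, hr, hs, ← Finset.sum_add_distrib]
      refine Finset.sum_congr rfl fun i _ => ?_
      rw [map_add, mul_add, map_add, mul_add]
    | smul a r hr =>
      rw [map_smul, mul_smul_comm, map_smul, hr, smul_eq_mul, Finset.mul_sum]
      refine Finset.sum_congr rfl fun i _ => ?_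
      rw [map_smul, mul_smul_comm, map_smul, smul_eq_mul]
      ring
  -- (a) what acts as zero on the `W i` acts as zero on `V`
  have ha : ∀ r : MonoidAlgebra E H, (∀ i, c i ≠ 0 → ga H (σ i) r = 0) → ga H ρ r = 0 := by
    intro r hr
    have h1 : ρ g * ga H ρ r = 0 := by
      apply trace_nondeg
      intro T
      obtain ⟨s, rfl⟩ := ga_surj hF T
      rw [mul_assoc, ← map_mul, ht]
      refine Finset.sum_eq_zero fun i _ => ?_
      by_cases hi : c i = 0
      · rw [hi, zero_mul]
      · rw [map_mul (ga H (σ i)), hr i hi, zero_mul, mul_zero, map_zero, mul_zero]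
    have h2 : ρ g⁻¹ * (ρ g * ga H ρ r) = ga H ρ r := by
      rw [← mul_assoc, ← map_mul, inv_mul_cancel, map_one, one_mul]
    rw [← h2, h1, mul_zero]
  obtain ⟨x, hx⟩ := exists_ne (0 : V)
  obtain ⟨m, hm⟩ : ∃ m : (k : Σ i, Fin (finrank E (W i))) → W k.1,
      ∀ k, m k = Module.finBasis E (W k.1) k.2 := ⟨fun k => Module.finBasis E (W k.1) k.2,
        fun _ => rfl⟩
  -- the main induction
  have key : ∀ S : Finset (Σ i, Fin (finrank E (W i))), (∀ k ∈ S, c k.1 ≠ 0) →
      (∀ r : MonoidAlgebra E H, (∀ k ∈ S, ga H (σ k.1) r (m k) = 0) → ga H ρ r x = 0) →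
      ∃ i, c i ≠ 0 ∧ SubquotOn H ρ (σ i) := by
    intro S
    induction S using Finset.induction_on with
    | empty =>
      intro _ h
      have := h 1 (by simp)
      rw [map_one, Module.End.one_apply] at this
      exact absurd this hx
    | insert a S haS ih =>
      intro hc h
      by_cases hS : ∀ r : MonoidAlgebra E H, (∀ k ∈ S, ga H (σ k.1) r (m k) = 0) → ga H ρ r x = 0
      · exact ih (fun k hk => hc k (Finset.mem_insert_of_mem hk)) hS
      · push Not at hS
        obtain ⟨r0, hr0, hr0x⟩ := hS
        refine ⟨a.1, hc a (Finset.mem_insert_self _ _), ?_⟩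
        -- the left ideal
        let L : Submodule E (MonoidAlgebra E H) :=
          { carrier := {r | ∀ k ∈ S, ga H (σ k.1) r (m k) = 0}
            add_mem' := by
              intro r s hr hs k hk
              rw [map_add, LinearMap.add_apply, hr k hk, hs k hk, add_zero]
            zero_mem' := by
              intro k _
              rw [map_zero, LinearMap.zero_apply]
            smul_mem' := by
              intro e r hr k hk
              rw [map_smul, LinearMap.smul_apply, hr k hk, smul_zero] }
        have hL : ∀ r, r ∈ L ↔ ∀ k ∈ S, ga H (σ k.1) r (m k) = 0 := fun r => Iff.rfl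
        have hLmul : ∀ s r, r ∈ L → s * r ∈ L := by
          intro s r hr k hk
          rw [map_mul, Module.End.mul_apply, hr k hk, map_zero]
        let α : L →ₗ[E] W a.1 :=
          ((LinearMap.applyₗ (m a)).comp (ga H (σ a.1)).toLinearMap).comp L.subtype
        let β : L →ₗ[E] V := ((LinearMap.applyₗ x).comp (ga H ρ).toLinearMap).comp L.subtype
        have hα : ∀ r : L, α r = ga H (σ a.1) r (m a) := fun r => rfl
        have hβ : ∀ r : L, β r = ga H ρ r x := fun r => rfl
        have hker : LinearMap.ker α ≤ LinearMap.ker β := by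
          intro r hr
          rw [LinearMap.mem_ker] at hr ⊢
          rw [hβ]
          refine h r ?_
          intro k hk
          rcases Finset.mem_insert.1 hk with rfl | hk
          · rw [← hα]; exact hr
          · exact r.2 k hk
        let f : LinearMap.range α →ₗ[E] V :=
          ((LinearMap.ker α).liftQ β hker).comp (α.quotKerEquivRange.symm : _ →ₗ[E] _)
        have hf : ∀ (r : L) (h : α r ∈ LinearMap.range α), f ⟨α r, h⟩ = β r := by
          intro r h
          change (LinearMap.ker α).liftQ β hker (α.quotKerEquivRange.symm ⟨α r, h⟩) = β r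
          rw [LinearMap.quotKerEquivRange_symm_apply_image, Submodule.mkQ_apply,
            Submodule.liftQ_apply]
        refine ⟨LinearMap.range α, f, ?_, ?_⟩
        · -- surjective
          intro u
          obtain ⟨T, hT⟩ : ∃ T : Module.End E V, T (ga H ρ r0 x) = u := by
            obtain ⟨φ, hφ⟩ : ∃ φ : Module.Dual E V, φ (ga H ρ r0 x) ≠ 0 := by
              by_contra hcon
              push Not at hcon
              exact hr0x ((Module.forall_dual_apply_eq_zero_iff E _).1 hcon)
            refine ⟨φ.smulRight ((φ (ga H ρ r0 x))⁻¹ • u), ?_⟩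
            rw [LinearMap.smulRight_apply, smul_smul, mul_inv_cancel₀ hφ, one_smul]
          obtain ⟨s, hs⟩ := ga_surj hF T
          refine ⟨⟨α ⟨s * r0, hLmul s r0 hr0⟩, LinearMap.mem_range_self _ _⟩, ?_⟩
          rw [hf, hβ]
          change ga H ρ (s * r0) x = u
          rw [map_mul, Module.End.mul_apply, hs, hT]
        · -- equivariance
          rintro y hy ⟨_, ⟨r, rfl⟩⟩
          have hmem : MonoidAlgebra.single (⟨y, hy⟩ : H) (1 : E) * r.1 ∈ L := hLmul _ _ r.2
          refine ⟨⟨α ⟨_, hmem⟩, LinearMap.mem_range_self _ _⟩, ?_, ?_⟩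
          · change ga H (σ a.1) (MonoidAlgebra.single (⟨y, hy⟩ : H) (1 : E) * r.1) (m a) =
              σ a.1 y (ga H (σ a.1) r (m a))
            rw [map_mul, Module.End.mul_apply, ga_single, one_smul]
          · have e1 : f ⟨α r, ⟨r, rfl⟩⟩ = β r := hf r _
            have e2 := hf ⟨_, hmem⟩ (LinearMap.mem_range_self _ _)
            refine e2.trans (Eq.trans ?_ (congrArg (ρ y) e1.symm))
            change ga H ρ (MonoidAlgebra.single (⟨y, hy⟩ : H) (1 : E) * r.1) x =
              ρ y (ga H ρ r x)
            rw [map_mul, Module.End.mul_apply, ga_single, one_smul]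
  refine key (Finset.univ.filter fun k => c k.1 ≠ 0) (fun k hk => (Finset.mem_filter.1 hk).2) ?_
  intro r hr
  rw [ha r ?_, LinearMap.zero_apply]
  intro i hi
  refine (Module.finBasis E (W i)).ext fun j => ?_
  have h1 := hr ⟨i, j⟩ (Finset.mem_filter.2 ⟨Finset.mem_univ _, hi⟩)
  rw [hm] at h1
  rw [h1, LinearMap.zero_apply]

end Pool.Agent.U612.LI
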